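import Pool.Agent.V1151.MTC.Main

/-!
# Motivic t-structures: the tensor compatibility is conservativity, and an intrinsic criterion

`C` is a rigid tensor triangulated category such that the unit has no nontrivial idempotent
endomorphisms (the category `DM_c(k)` of constructible Voevodsky motives with rational coefficients
over a field `k`, where `End(𝟙) = ℚ`), and `R l` are realisations (the `ℓ`-adic ones, in the form of
the cohomology functors `H^i = H(-⟦i⟧)` with the Künneth formula).
-/

set_option autoImplicit false

open CategoryTheory Limits MonoidalCategory Pretriangulated Triangulated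

namespace Pool.Agent.Results.MP_6d0ce9_ag.ConservativeCriterion

universe v u w

open Pool.Agent.Y116.MT Pool.Agent.V1151.MTC

/-- The following are equivalent:

1. there is a motivic t-structure: non-degenerate, compatible with the tensor product, and such
   that all realisations `R l` are t-exact;
2. there is a t-structure such that all realisations `R l` are t-exact, and ONE realisation
   `R l₀` is conservative (neither compatibility with the tensor product nor non-degeneracy is
   assumed);
3. there is a t-structure for which `X` is in degrees `≤ n` (`≥ n`) if and only if the cohomology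
   `H^i(X)` of the realisation `R l` vanishes for all `i > n` (`i < n`), for each `l`;
4. `R l₀` is conservative; `Hom(X, Y) = 0` if `H^i(X) = 0` for `i > 0` and `H^i(Y) = 0` for
   `i < 1` (cohomology of the realisation `R l₀`); every `X` lies in a triangle `A ⟶ X ⟶ B ⟶ A⟦1⟧`
   with `H^i(A) = 0` for `i > 0` and `H^i(B) = 0` for `i < 1`; and an object whose cohomology for
   `R l₀` vanishes in positive (negative) degrees has this property for all `R l`.

Moreover, a motivic t-structure `t` is the only t-structure for which some realisation `R l` is
t-exact (no other property of the second t-structure is assumed), and it is bounded. -/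
theorem result {C : Type u} [Category.{v} C] [Preadditive C] [HasZeroObject C] [HasShift C ℤ]
    [∀ n : ℤ, (shiftFunctor C n).Additive] [Pretriangulated C] [IsTriangulated C]
    [MonoidalCategory C] [SymmetricCategory C] [TensorTriangulated C] [MonoidalPreadditive C]
    [RightRigidCategory C] (hid : ∀ e : 𝟙_ C ⟶ 𝟙_ C, e ≫ e = e → e = 0 ∨ e = 𝟙 _)
    {Λ : Type*} {E : Λ → Type w} [∀ l, Field (E l)] (R : ∀ l, Realisation C (E l)) (l₀ : Λ) :
    List.TFAE [∃ t : TStructure C, IsMotivic t R,
      ∃ t : TStructure C, (∀ l, IsExact t (R l)) ∧ Conservative (R l₀),
      ∃ t : TStructure C, ∀ l, IsDefinedBy t (R l),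
      Intrinsic R l₀] ∧
    ∀ t : TStructure C, IsMotivic t R →
      (∀ (t' : TStructure C) (l : Λ), IsExact t' (R l) →
        ∀ n : ℤ, t'.le n = t.le n ∧ t'.ge n = t.ge n) ∧
      ∀ X : C, ∃ N : ℕ, t.le N X ∧ t.ge (-N) X :=
  ⟨main R l₀ hid, fun _ ht => ⟨(unique R hid ht).1, (unique R hid ht).2 ⟨l₀⟩⟩⟩

end Pool.Agent.Results.MP_6d0ce9_ag.ConservativeCriterion
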