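import Pool.Agent.V1139.MT.Cont

/-!
# Motivic t-structures: one prime `ℓ` suffices, and it may vary with the field

`C` is the category `DM_c(k)` of constructible Voevodsky motives with rational coefficients over a
field `k` and `R l` are the `ℓ`-adic realisations, in the form of the cohomology functors
`H^i = H(-⟦i⟧)` with the Künneth formula. The categories `K i` are the categories `DM_c(k_i)`
for the finitely generated subfields `k_i` of `k`, with the base change functors `b i` to `C` and
the realisations `S i l`.
-/

set_option autoImplicit false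

open CategoryTheory Limits MonoidalCategory Pretriangulated Triangulated

namespace Pool.Agent.Results.MP_6d0ce9_ag.OneEllSuffices

universe v u w

open Pool.Agent.Y116.MT Pool.Agent.V1151.MTC Pool.Agent.V1139.MT

/-- Let `K i` be rigid tensor triangulated categories whose unit has no nontrivial idempotent
endomorphisms (`DM_c(k_i)` for finitely generated fields `k_i`), each generated by a class
`Chow i` of objects (the Chow motives) by completing distinguished triangles, with realisations
`S i l`, `l ∈ Λ`, that have Frobenius elements: for finitely many objects `P` of `Chow i` and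
`l, l' ∈ Λ` there are `q > 1` and natural endomorphisms `F` and `F'` of the cohomologies `l` and
`l'` such that `F` on `H^j(P)` and `F'` on `H'^j(P)` have the same characteristic polynomial, which
is rational with roots of absolute value `q^(j/2)` (geometric Frobenius elements at a closed
point of good reduction; Deligne, Katz and Messing).

(1) A t-structure on `K i` for which ONE realisation `S i l` is t-exact and conservative is
motivic: it is non-degenerate, compatible with the tensor product, and ALL the realisations are
t-exact.

(2) Let `C` be a tensor triangulated category with realisations `R l` and triangulated functors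
`b i : K i ⥤ C` compatible with the realisations, such that every morphism of `C` comes from
some `K i` (`DM_c(k)` for an arbitrary field `k`, and its finitely generated subfields `k_i`).
Suppose that for every `i` there is ONE `l`, which may depend on `i`, and a t-structure on `K i`
for which `S i l` is t-exact and conservative. Then `C` has a motivic t-structure `t`, for all the
realisations `R l`. Moreover an object `X` of `K i` is in degrees `≤ n` (`≥ n`) for any of these
t-structures on `K i` if and only if `b i X` is so for `t`. -/
theorem result {C : Type u} [Category.{v} C] [Preadditive C] [HasZeroObject C] [HasShift C ℤ]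
    [∀ n : ℤ, (shiftFunctor C n).Additive] [Pretriangulated C] [IsTriangulated C]
    [MonoidalCategory C] [SymmetricCategory C] [TensorTriangulated C]
    {I : Type} {K : I → Type u} [∀ i, Category.{v} (K i)] [∀ i, Preadditive (K i)]
    [∀ i, HasZeroObject (K i)] [∀ i, HasShift (K i) ℤ]
    [∀ i, ∀ n : ℤ, (shiftFunctor (K i) n).Additive] [∀ i, Pretriangulated (K i)]
    [∀ i, IsTriangulated (K i)] [∀ i, MonoidalCategory (K i)] [∀ i, SymmetricCategory (K i)]
    [∀ i, TensorTriangulated (K i)] [∀ i, MonoidalPreadditive (K i)]
    [∀ i, RightRigidCategory (K i)]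
    (hid : ∀ i, ∀ e : 𝟙_ (K i) ⟶ 𝟙_ (K i), e ≫ e = e → e = 0 ∨ e = 𝟙 _)
    {Λ : Type} {E : Λ → Type w} [∀ l, Field (E l)] [∀ l, CharZero (E l)]
    (S : ∀ i l, Realisation (K i) (E l)) (Chow : ∀ i, K i → Prop)
    (hgen : ∀ i (X : K i), Built (Chow i) X)
    (hF : ∀ i l l', HasFrobenius (S i l) (S i l') (Chow i))
    (R : ∀ l, Realisation C (E l))
    (b : ∀ i, K i ⥤ C) [∀ i, (b i).CommShift ℤ] [∀ i, (b i).IsTriangulated]
    (hcomp : ∀ i l, Nonempty (b i ⋙ (R l).H ≅ (S i l).H))
    (hmor : ∀ (X Y : C) (f : X ⟶ Y), ∃ (i : I) (X' Y' : K i) (f' : X' ⟶ Y')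
      (a : (b i).obj X' ≅ X) (c : (b i).obj Y' ≅ Y), f = a.inv ≫ (b i).map f' ≫ c.hom) :
    (∀ (i : I) (t : TStructure (K i)) (l : Λ), IsExact t (S i l) → Conservative (S i l) →
      IsMotivic t (S i)) ∧
    ((∀ i : I, ∃ (t : TStructure (K i)) (l : Λ), IsExact t (S i l) ∧ Conservative (S i l)) →
      ∃ t : TStructure C, IsMotivic t R ∧
        ∀ (i : I) (t' : TStructure (K i)) (l : Λ), IsExact t' (S i l) → Conservative (S i l) →
          ∀ (n : ℤ) (X : K i), (t'.le n X ↔ t.le n ((b i).obj X)) ∧
            (t'.ge n X ↔ t.ge n ((b i).obj X))) := by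
  have h1 : ∀ (i : I) (t : TStructure (K i)) (l : Λ), IsExact t (S i l) →
      Conservative (S i l) → IsMotivic t (S i) := fun i t l he hc =>
    motivic_of_one (hid i) (S i) (hgen i) (hF i) he hc
  refine ⟨h1, fun h => ?_⟩
  obtain ⟨Z, _⟩ := HasZeroObject.zero (C := C)
  obtain ⟨i₀, _⟩ := hmor Z Z (𝟙 Z)
  obtain ⟨_, l₀, _⟩ := h i₀
  have : Nonempty Λ := ⟨l₀⟩
  obtain ⟨t, ht, ht'⟩ := cont b R S hcomp hmor hid fun i => by
    obtain ⟨t, l, he, hc⟩ := h i
    exact ⟨t, h1 i t l he hc⟩
  exact ⟨t, ht, fun i t' l he hc => ht' i t' (h1 i t' l he hc)⟩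

end Pool.Agent.Results.MP_6d0ce9_ag.OneEllSuffices
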