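import Pool.Agent.V1178.MT.Main

/-!
# Motivic t-structures up to small errors

Let `t` be a t-structure on the category of constructible motives over a field (or on any rigid
tensor triangulated category with realisations `R l` and an indecomposable unit). It is shown that
`t` is motivic, that is, non-degenerate, compatible with the tensor product and such that all `R l`
are t-exact, if this is so up to errors of the following size:

* some `R l` is conservative (this is a consequence of the existence of a motivic t-structure),
* each `R l` is t-exact up to a bounded error (depending on `l`),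
* the `n`-th tensor power of an object in degrees `≤ 0` is in degrees `≤ θ n + K`, with a constant
  `θ < 1`, and dually for objects in degrees `≥ 0`; nothing is assumed on tensor products of different
  objects.

A t-structure with the last property at bounded distance from a motivic one is equal to it.
-/

set_option autoImplicit false

open CategoryTheory Limits MonoidalCategory Pretriangulated Triangulated

universe v u w

namespace Pool.Agent.Results.MP_6d0ce9_ag.SmallErrors

open Pool.Agent.Y116.MT Pool.Agent.V1178.MT

/-- (1) A t-structure is motivic if and only if it is almost motivic. (2) Let `t` be motivic, and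
let `t'` be a t-structure with the `n`-th tensor power of each object in degrees `≤ 0` (`≥ 0`) for
`t'` in degrees `≤ θ n + K` (`≥ -(θ n + K)`) for `t'`, where `θ < 1`. If, for some `N`, the objects
in degrees `≤ 0` (`≥ 0`) for `t'` are in degrees `≤ N` (`≥ -N`) for `t`, then `t'` and `t` are the
same t-structure. -/
theorem result {C : Type u} [Category.{v} C] [Preadditive C] [HasZeroObject C] [HasShift C ℤ]
    [∀ n : ℤ, (shiftFunctor C n).Additive] [Pretriangulated C] [IsTriangulated C]
    [MonoidalCategory C] [SymmetricCategory C] [TensorTriangulated C] [MonoidalPreadditive C]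
    [RightRigidCategory C] (hid : ∀ e : 𝟙_ C ⟶ 𝟙_ C, e ≫ e = e → e = 0 ∨ e = 𝟙 _)
    {Λ : Type*} [Nonempty Λ] {E : Λ → Type w} [∀ l, Field (E l)]
    (R : ∀ l, Realisation C (E l)) (t : TStructure C) :
    (IsMotivic t R ↔ IsAlmostMotivic t R) ∧
    ∀ t' : TStructure C, IsMotivic t R → (∃ θ K : ℝ, θ < 1 ∧ PowersUpTo t' θ K) →
      (∃ N : ℤ, ∀ X, (t'.le 0 X → t.le N X) ∧ (t'.ge 0 X → t.ge (-N) X)) →
      ∀ (X : C) (n : ℤ), (t'.le n X ↔ t.le n X) ∧ (t'.ge n X ↔ t.ge n X) := by
  refine ⟨⟨almost_of_motivic hid, motivic_of_almost⟩, ?_⟩
  rintro t' h ⟨θ, K, hθ, hp⟩ ⟨N, hN⟩ X n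
  exact eq_of_near hid h hθ hp (fun X => (hN X).1) (fun X => (hN X).2) X n

end Pool.Agent.Results.MP_6d0ce9_ag.SmallErrors
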