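import Pool.Agent.V1194.UD.Main

/-!
# Motivic t-structures: descent from every extension of the base field, and one field per characteristic

`C k` is the category `DM_c(k)` of constructible Voevodsky motives with rational coefficients over the
field `k`, a rigid, idempotent complete tensor triangulated category such that the unit has no nontrivial
idempotent endomorphisms, with the realisations `R k l` (the `ℓ`-adic ones, in the form of the cohomology
functors `H^i = H(-⟦i⟧)` with the Künneth formula), for the fields `k` of a given characteristic.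
-/

set_option autoImplicit false
set_option linter.unusedSectionVars false

open CategoryTheory Limits MonoidalCategory Pretriangulated Triangulated

namespace Pool.Agent.Results.MP_6d0ce9_ag.UniversalDomain

universe v u w x

open Pool.Agent.Y116.MT Pool.Agent.V1151.MTC Pool.Agent.V1194.UD

/-- A base change from `C` to `D` (for `C = DM_c(k)`, `D = DM_c(K)`, `K` any extension of `k`): an
additive, triangulated and faithful functor which respects the vanishing of the cohomology of the
realisations, such that the triangles of `D` with middle term from `C` spread out to models. -/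
structure BaseChange {C D : Type u} [Category.{v} C] [Preadditive C] [HasZeroObject C]
    [HasShift C ℤ] [∀ n : ℤ, (shiftFunctor C n).Additive] [Pretriangulated C] [MonoidalCategory C]
    [SymmetricCategory C] [TensorTriangulated C] [Category.{v} D] [Preadditive D]
    [HasZeroObject D] [HasShift D ℤ] [∀ n : ℤ, (shiftFunctor D n).Additive] [Pretriangulated D]
    [MonoidalCategory D] [SymmetricCategory D] [TensorTriangulated D] {Λ : Type}
    {E : Λ → Type w} [∀ l, Field (E l)] (R : ∀ l, Realisation C (E l))
    (R' : ∀ l, Realisation D (E l)) where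
  /-- the functor -/
  U : C ⥤ D
  [additive : U.Additive]
  [commShift : U.CommShift ℤ]
  [triangulated : U.IsTriangulated]
  [faithful : U.Faithful]
  same : SameVanishing U R R'
  spreads : Spreads.{v, u, w, v, u, w, v, u} U R R'

attribute [instance] BaseChange.additive BaseChange.commShift BaseChange.triangulated
  BaseChange.faithful

/-- (1) A motivic t-structure (non-degenerate, compatible with the tensor product, all realisations
t-exact) for a field `K` induces one for every subfield `k` of `K`, and the base change from `k` to `K`
is t-exact and reflects the t-structures.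

(2) There is a motivic t-structure for `K` if and only if there is one for every finitely generated
subfield (for every member of a family of subfields such that every morphism of `DM_c(K)` comes from one
of them).

(3) If every finitely generated field `k` of the given characteristic has an embedding in the field `Ω`
(such as the complex numbers, or an algebraic closure of `𝔽_p(t₁, t₂, …)`), then there is a motivic
t-structure for `Ω` if and only if there is one for every field of this characteristic. -/
theorem result {F : Type x} {C : F → Type u} [∀ k, Category.{v} (C k)] [∀ k, Preadditive (C k)]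
    [∀ k, HasZeroObject (C k)] [∀ k, HasShift (C k) ℤ]
    [∀ k, ∀ n : ℤ, (shiftFunctor (C k) n).Additive] [∀ k, Pretriangulated (C k)]
    [∀ k, IsTriangulated (C k)] [∀ k, MonoidalCategory (C k)] [∀ k, SymmetricCategory (C k)]
    [∀ k, TensorTriangulated (C k)] [∀ k, MonoidalPreadditive (C k)]
    [∀ k, RightRigidCategory (C k)] [∀ k, IsIdempotentComplete (C k)]
    (hid : ∀ k, ∀ e : 𝟙_ (C k) ⟶ 𝟙_ (C k), e ≫ e = e → e = 0 ∨ e = 𝟙 _)
    {Λ : Type} [Nonempty Λ] {E : Λ → Type w} [∀ l, Field (E l)]
    (R : ∀ k l, Realisation (C k) (E l)) :
    (∀ (k K : F) (B : BaseChange.{v, u, w} (R k) (R K)) (t' : TStructure (C K)),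
      IsMotivic t' (R K) → ∃ t : TStructure (C k), IsMotivic t (R k) ∧
        ∀ (n : ℤ) (X : C k), (t.le n X ↔ t'.le n (B.U.obj X)) ∧
          (t.ge n X ↔ t'.ge n (B.U.obj X))) ∧
    (∀ (K : F) (ι : Type x) (sub : ι → F)
      (B : ∀ j, BaseChange.{v, u, w} (R (sub j)) (R K)),
      Continuous (fun j => (B j).U) →
      ((∃ t : TStructure (C K), IsMotivic t (R K)) ↔
        ∀ j, ∃ t : TStructure (C (sub j)), IsMotivic t (R (sub j)))) ∧
    (∀ Ω : F, (∀ K : F, ∃ (ι : Type x) (sub : ι → F)
        (B : ∀ j, BaseChange.{v, u, w} (R (sub j)) (R K)),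
        Continuous (fun j => (B j).U) ∧
          ∀ j, Nonempty (BaseChange.{v, u, w} (R (sub j)) (R Ω))) →
      ((∃ t : TStructure (C Ω), IsMotivic t (R Ω)) ↔
        ∀ K : F, ∃ t : TStructure (C K), IsMotivic t (R K))) := by
  obtain ⟨l₀⟩ := ‹Nonempty Λ›
  have hI : ∀ k : F, (∃ t : TStructure (C k), IsMotivic t (R k)) ↔ Intrinsic (R k) l₀ :=
    fun k => (main (R k) l₀ (hid k)).out 0 3
  have hdesc : ∀ (k K : F) (B : BaseChange.{v, u, w} (R k) (R K)),
      (∃ t : TStructure (C K), IsMotivic t (R K)) →
        ∃ t : TStructure (C k), IsMotivic t (R k) := by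
    intro k K B h
    exact (hI k).2 (descend B.same B.spreads ((hI K).1 h))
  have h2 : ∀ (K : F) (ι : Type x) (sub : ι → F)
      (B : ∀ j, BaseChange.{v, u, w} (R (sub j)) (R K)),
      Continuous (fun j => (B j).U) →
      ((∃ t : TStructure (C K), IsMotivic t (R K)) ↔
        ∀ j, ∃ t : TStructure (C (sub j)), IsMotivic t (R (sub j))) := by
    intro K ι sub B hc
    refine ⟨fun h j => hdesc _ _ (B j) h, fun h => (hI K).2 ?_⟩
    exact ascend (C := fun j => C (sub j)) (R := fun j => R (sub j)) (U := fun j => (B j).U)
      (fun j => (B j).same) hc fun j => (hI (sub j)).1 (h j)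
  refine ⟨?_, h2, ?_⟩
  · intro k K B t' ht'
    obtain ⟨t, ht⟩ := hdesc k K B ⟨t', ht'⟩
    refine ⟨t, ht, fun n X => ?_⟩
    have d1 := isDefinedBy (mot_exact ht l₀) (mot_conservative ht (hid k) l₀)
    have d2 := isDefinedBy (mot_exact ht' l₀) (mot_conservative ht' (hid K) l₀)
    exact ⟨((d1 n X).1.trans (B.same.le l₀ n X)).trans (d2 n _).1.symm,
      ((d1 n X).2.trans (B.same.ge l₀ n X)).trans (d2 n _).2.symm⟩
  · intro Ω hΩ
    refine ⟨fun h K => ?_, fun h => h Ω⟩
    obtain ⟨ι, sub, B, hc, hB⟩ := hΩ K
    refine (h2 K ι sub B hc).2 fun j => ?_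
    obtain ⟨B'⟩ := hB j
    exact hdesc _ _ B' h

end Pool.Agent.Results.MP_6d0ce9_ag.UniversalDomain
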